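import Pool.Agent.Lib.helper28.WgaB
import Pool.Agent.Lib.helper28.WgaC
import Pool.Agent.Lib.helper28.WgaD

set_option autoImplicit false

open MeasureTheory Filter Topology
open scoped RealInnerProductSpace unitInterval

namespace Pool.Agent.Results.MP_8ec86e_an.ClassV

/-- The bilinear dictionary: products u(x) v(y) of unit vectors of L2[0,1]. -/
def Pi2 : Set (Lp ℝ 2 (volume : Measure (I × I))) :=
  {g | ∃ u v : Lp ℝ 2 (volume : Measure I), ‖u‖ = 1 ∧ ‖v‖ = 1 ∧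
    g =ᵐ[volume] fun p : I × I => u p.1 * v p.2}

/-- `f m` are the residuals and `φ m` (m ≥ 1) the chosen elements of a realization of the WGA
with dictionary `D` and weakness sequence `t`. -/
def IsRealization {H : Type} [NormedAddCommGroup H] [InnerProductSpace ℝ H] (D : Set H)
    (t : ℕ → ℝ) (f φ : ℕ → H) : Prop :=
  ∀ m : ℕ, φ (m + 1) ∈ D ∧
    t (m + 1) * (⨆ g : D, |⟪f m, (g : H)⟫|) ≤ |⟪f m, φ (m + 1)⟫| ∧
    f (m + 1) = f m - ⟪f m, φ (m + 1)⟫ • φ (m + 1)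

/-- Every realization of the WGA converges: `G m = f 0 - f m` tends to `f 0`. -/
def Converges {H : Type} [NormedAddCommGroup H] [InnerProductSpace ℝ H] (D : Set H)
    (t : ℕ → ℝ) : Prop :=
  ∀ f φ : ℕ → H, IsRealization D t f φ → Tendsto (fun m => f 0 - f m) atTop (𝓝 (f 0))

/-- Temlyakov's class V. -/
def InV (x : ℕ → ℝ) : Prop :=
  ∃ q : ℕ → ℕ, q 0 = 0 ∧ StrictMono q ∧
    Summable (fun s : ℕ => (2 : ℝ) ^ (s + 1) / ((q (s + 1) : ℝ) - (q s : ℝ))) ∧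
    Summable (fun s : ℕ => ((2 : ℝ) ^ (s + 1))⁻¹ * ∑ k ∈ Finset.Icc 1 (q (s + 1)), x k ^ 2)

theorem sum_shift (x : ℕ → ℝ) (n : ℕ) :
    ∑ k ∈ Finset.Icc 1 n, x k ^ 2 = ∑ k ∈ Finset.range n, x (k + 1) ^ 2 := by
  induction n with
  | zero => simp
  | succ n ih => rw [Finset.sum_Icc_succ_top (by omega), ih, Finset.sum_range_succ]

theorem inV_iff (x : ℕ → ℝ) : InV x ↔ H28WgaS.V0 (fun k => x (k + 1)) := by
  unfold InV H28WgaS.V0
  simp only [sum_shift]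

theorem mem_iff (g : H28WgaL.H2) :
    g ∈ Pi2 ↔ ∃ u v : H28WgaL.E1, ‖u‖ = 1 ∧ ‖v‖ = 1 ∧ g = H28WgaL.T u v := by
  unfold Pi2
  simp only [Set.mem_ofPred_eq, H28WgaL.T_iff]

theorem norm_mem (g : H28WgaL.H2) (hg : g ∈ Pi2) : ‖g‖ = 1 := by
  obtain ⟨u, v, hu, hv, rfl⟩ := (mem_iff g).1 hg
  exact H28Wga.T_norm H28WgaL.inner_T hu hv

theorem bdd (f : H28WgaL.H2) : BddAbove (Set.range (fun g : Pi2 => |⟪f, (g : H28WgaL.H2)⟫|)) := by
  refine ⟨‖f‖, ?_⟩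
  rintro _ ⟨g, rfl⟩
  have := abs_real_inner_le_norm f (g : H28WgaL.H2)
  rwa [norm_mem _ g.2, mul_one] at this

theorem result (t : ℕ → ℝ) (ht : ∀ k, 1 ≤ k → 0 ≤ t k ∧ t k ≤ 1) :
    Converges Pi2 t ↔ ¬ InV t := by
  have ht' : ∀ k, 0 ≤ t (k + 1) ∧ t (k + 1) ≤ 1 := fun k => ht _ (by omega)
  rw [inV_iff]
  constructor
  · rintro h ⟨q, -, hq, h1, h2⟩
    obtain ⟨e, he⟩ := H28WgaL.exists_on
    obtain ⟨f, u, v, hf⟩ := H28Wga.diverge H28WgaL.inner_T he ht' hq h1 h2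
    have hne : Nonempty Pi2 := ⟨⟨_, (mem_iff _).2 ⟨_, _, he.1 0, he.1 0, rfl⟩⟩⟩
    have h3 := h f (fun m => H28WgaL.T (u (m - 1)) (v (m - 1))) (fun m => by
      simp only [Nat.add_sub_cancel]
      obtain ⟨a1, a2, a3, a4, -⟩ := hf m
      refine ⟨(mem_iff _).2 ⟨_, _, a1, a2, rfl⟩, ?_, a4⟩
      rw [Real.mul_iSup_of_nonneg (ht' m).1]
      refine ciSup_le (fun g => ?_)
      obtain ⟨u', v', hu, hv, hg⟩ := (mem_iff _).1 g.2
      rw [hg]
      exact a3 u' v' hu hv)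
    have h4 : Tendsto (fun m => ‖f 0 - (f 0 - f m)‖ ^ 2) atTop (𝓝 (‖f 0 - f 0‖ ^ 2)) :=
      ((h3.const_sub (f 0)).norm).pow 2
    simp only [sub_sub_cancel, sub_self, norm_zero] at h4
    have h5 := ge_of_tendsto' h4 (fun m => (hf m).2.2.2.2)
    norm_num at h5
  · intro hV f φ h
    have h1 := H28WgaS.converge Pi2 norm_mem
      (fun x hx => H28WgaL.dense_T x (fun u v hu hv => hx _ ((mem_iff _).2 ⟨u, v, hu, hv, rfl⟩)))
      (fun k => t (k + 1)) ht' hV f (fun m => φ (m + 1)) (fun m => (h m).1)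
      (fun m g hg => le_trans (mul_le_mul_of_nonneg_left
        (le_ciSup (bdd (f m)) (⟨g, hg⟩ : Pi2)) (ht' m).1) (h m).2.1) (fun m => (h m).2.2)
    simpa using h1.const_sub (f 0)

end Pool.Agent.Results.MP_8ec86e_an.ClassV
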